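import Mathlib

set_option autoImplicit false

namespace Pool.Agent.H.MP_269158_co

/-- `L(n,n)`: partitions `n ≥ f 0 ≥ f 1 ≥ … ≥ f (n-1) ≥ 0`, ordered pointwise -/
abbrev L (n : ℕ) : Type := {f : Fin n → Fin (n + 1) // Antitone f}

open Classical in
/-- the number of antichains of `L(n,n)` -/
noncomputable def A (n : ℕ) : ℕ :=
  (Finset.univ.filter fun S : Finset (L n) => IsAntichain (· ≤ ·) (S : Set (L n))).card

end Pool.Agent.H.MP_269158_co
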