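import Mathlib

set_option autoImplicit false

namespace Pool.Agent.H.MP_269158_co

open Finset

/-- number of ones -/
def cnt : List Bool → ℕ
  | [] => 0
  | b :: l => b.toNat + cnt l

/-- number of ones from position `t` on -/
def H (l : List Bool) (t : ℕ) : ℕ := cnt (l.drop t)

@[simp] lemma cnt_nil : cnt [] = 0 := rfl
@[simp] lemma cnt_cons (b : Bool) (l : List Bool) : cnt (b :: l) = b.toNat + cnt l := rfl
@[simp] lemma H_zero (l : List Bool) : H l 0 = cnt l := rfl
@[simp] lemma H_nil (t : ℕ) : H [] t = 0 := by simp [H]
@[simp] lemma H_succ (b : Bool) (l : List Bool) (t : ℕ) : H (b :: l) (t + 1) = H l t := rfl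

@[simp] lemma cnt_append (l l' : List Bool) : cnt (l ++ l') = cnt l + cnt l' := by
  induction l with
  | nil => simp
  | cons b l ih => simp [ih, add_assoc]

lemma cnt_le (l : List Bool) : cnt l ≤ l.length := by
  induction l with
  | nil => simp
  | cons b l ih => cases b <;> simp <;> omega

lemma H_append (l l' : List Bool) (t : ℕ) : H (l ++ l') t = H l t + H l' (t - l.length) := by
  simp [H, List.drop_append]

lemma H_big (l : List Bool) (t : ℕ) (h : l.length ≤ t) : H l t = 0 := by
  simp [H, List.drop_of_length_le h]

lemma H_step (l : List Bool) (t : ℕ) : H l (t + 1) ≤ H l t ∧ H l t ≤ H l (t + 1) + 1 := by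
  induction l generalizing t with
  | nil => simp
  | cons b l ih =>
    cases t with
    | zero => cases b <;> simp <;> omega
    | succ t => simpa using ih t

lemma cnt_le_H (l : List Bool) (t : ℕ) : cnt l ≤ t + H l t := by
  induction t with
  | zero => simp
  | succ t ih => have := H_step l t; omega

lemma H_inj : ∀ l l' : List Bool, l.length = l'.length → (∀ t, H l t = H l' t) → l = l'
  | [], [], _, _ => rfl
  | [], _ :: _, h, _ => by simp at h
  | _ :: _, [], h, _ => by simp at h
  | b :: l, b' :: l', h, e => by
    obtain rfl := H_inj l l' (by simpa using h) fun t => by simpa using e (t + 1)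
    have := e 0
    clear e
    cases b <;> cases b' <;> simp_all

/-- for each zero, the number of ones to its right -/
def parts : List Bool → List ℕ
  | [] => []
  | true :: l => parts l
  | false :: l => cnt l :: parts l

lemma parts_len (l : List Bool) : (parts l).length + cnt l = l.length := by
  induction l with
  | nil => rfl
  | cons b l ih => cases b <;> simp [parts] <;> omega

lemma parts_le (l : List Bool) (i : ℕ) : (parts l).getD i 0 ≤ cnt l := by
  induction l generalizing i with
  | nil => simp [parts]
  | cons b l ih =>
    cases b
    · cases i with
      | zero => simp [parts]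
      | succ i => simpa [parts] using ih i
    · have := ih i
      simp only [parts, cnt_cons]
      omega

lemma parts_anti (l : List Bool) (i j : ℕ) (h : i ≤ j) :
    (parts l).getD j 0 ≤ (parts l).getD i 0 := by
  induction l generalizing i j with
  | nil => simp [parts]
  | cons b l ih =>
    cases b
    · cases j with
      | zero => obtain rfl : i = 0 := by omega
                rfl
      | succ j =>
        cases i with
        | zero => simpa [parts] using parts_le l j
        | succ i => simpa [parts] using ih i j (by omega)
    · exact ih i j h

lemma parts_iff (l : List Bool) (i t : ℕ) (hi : i < (parts l).length) (ht : t ≤ l.length) :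
    cnt l + i < t + H l t ↔ cnt l + i < t + (parts l).getD i 0 := by
  induction l generalizing i t with
  | nil => simp [parts] at hi
  | cons b l ih =>
    have p := parts_le (b :: l) i
    cases t with
    | zero => rw [H_zero]; omega
    | succ t =>
      rw [List.length_cons] at ht
      cases b
      · cases i with
        | zero =>
          have := cnt_le_H l t
          simp [parts]
          omega
        | succ i =>
          have := ih i t (by simpa [parts] using hi) (by omega)
          simp only [parts, cnt_cons, H_succ, List.getD_cons_succ, Bool.toNat_false]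
          omega
      · have := ih i t hi (by omega)
        simp only [parts, cnt_cons, H_succ, Bool.toNat_true]
        omega

lemma parts_mono {l l' : List Bool} (h : l.length = l'.length) (hc : cnt l = cnt l')
    (e : ∀ t, H l t ≤ H l' t) (i : ℕ) (hi : i < (parts l).length) :
    (parts l).getD i 0 ≤ (parts l').getD i 0 := by
  have a := parts_len l
  have b := parts_len l'
  have c := parts_le l i
  have d := (parts_iff l i (cnt l + i + 1 - (parts l).getD i 0) hi (by omega)).2 (by omega)
  have f := e (cnt l + i + 1 - (parts l).getD i 0)
  have g := (parts_iff l' i (cnt l + i + 1 - (parts l).getD i 0) (by omega) (by omega)).1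
    (by omega)
  omega

lemma parts_inj : ∀ l l' : List Bool, l.length = l'.length → cnt l = cnt l' →
    parts l = parts l' → l = l'
  | [], [], _, _, _ => rfl
  | [], _ :: _, h, _, _ => by simp at h
  | _ :: _, [], h, _, _ => by simp at h
  | true :: l, true :: l', h, c, e => by
    rw [parts_inj l l' (by simpa using h) (by simpa using c) e]
  | false :: l, false :: l', h, c, e => by
    rw [parts_inj l l' (by simpa using h) (by simpa using c) (List.cons.inj e).2]
  | true :: l, false :: l', _, c, e => by
    have := parts_le l 0
    rw [show parts l = cnt l' :: parts l' from e] at this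
    simp at this c
    omega
  | false :: l, true :: l', _, c, e => by
    have := parts_le l' 0
    rw [← show cnt l :: parts l = parts l' from e] at this
    simp at this c
    omega

lemma rep (k : ℕ) (l : List Bool) : parts (List.replicate k true ++ l) = parts l ∧
    cnt (List.replicate k true ++ l) = k + cnt l := by
  induction k with
  | zero => simp
  | succ k ih =>
    rw [List.replicate_succ, List.cons_append, parts, cnt_cons, ih.1, ih.2]
    simp only [Bool.toNat_true, true_and]
    omega

lemma parts_surj (p : List ℕ) (hp : p.Pairwise (· ≥ ·)) (c : ℕ) (hc : ∀ q ∈ p, q ≤ c) :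
    ∃ l, cnt l = c ∧ parts l = p := by
  induction p generalizing c with
  | nil => exact ⟨List.replicate c true ++ [], (rep c []).2, (rep c []).1⟩
  | cons q p ih =>
    rw [List.pairwise_cons] at hp
    obtain ⟨l, h1, h2⟩ := ih hp.2 q hp.1
    have := hc q (by simp)
    refine ⟨List.replicate (c - q) true ++ false :: l, ?_, ?_⟩
    · rw [(rep _ _).2]; simp; omega
    · rw [(rep _ _).1, parts, h1, h2]

/-- all binary words of length `N` -/
def all : ℕ → Finset (List Bool)
  | 0 => {[]}
  | N + 1 => (all N).image (List.cons true) ∪ (all N).image (List.cons false)

lemma mem_all (N : ℕ) (l : List Bool) : l ∈ all N ↔ l.length = N := by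
  induction N generalizing l with
  | zero => simp [all]
  | succ N ih =>
    cases l with
    | nil => simp [all]
    | cons b l => cases b <;> simp [all, ih]

lemma sum_all {M : Type} [AddCommMonoid M] (N : ℕ) (g : List Bool → M) :
    ∑ l ∈ all (N + 1), g l = ∑ l ∈ all N, g (true :: l) + ∑ l ∈ all N, g (false :: l) := by
  rw [all, sum_union, sum_image (by simp), sum_image (by simp)]
  simp [disjoint_left]

lemma card_all (N : ℕ) : #(all N) = 2 ^ N := by
  induction N with
  | zero => rfl
  | succ N ih => rw [card_eq_sum_ones, sum_all, ← card_eq_sum_ones, ih]; ring

lemma card_cnt (N c : ℕ) : #{l ∈ all N | cnt l = c} = N.choose c := by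
  induction N generalizing c with
  | zero => cases c <;> simp [all, filter_singleton]
  | succ N ih =>
    rw [card_filter, sum_all, ← card_filter, ← card_filter]
    cases c with
    | zero => simpa using ih 0
    | succ c =>
      rw [Nat.choose_succ_succ, ← ih, ← ih]
      simp [add_comm 1]

end Pool.Agent.H.MP_269158_co
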