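import Mathlib
import Pool.Agent.H.MP_269158_co.Str

set_option autoImplicit false

namespace Pool.Agent.H.MP_269158_co

open Finset

/-! chains in the outer part -/

abbrev Z : Type := List (Bool × Bool)

def lev (z : Z) : ℤ := (cnt (z.map Prod.snd) : ℤ) - cnt (z.map Prod.fst)

@[simp] lemma lev_nil : lev [] = 0 := rfl
@[simp] lemma lev_cons (p : Bool × Bool) (z : Z) :
    lev (p :: z) = lev z + p.2.toNat - p.1.toNat := by
  simp only [lev, List.map_cons, cnt_cons]
  push_cast
  ring

def ko : Z → Z
  | [] => []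
  | p :: z => (if p = (false, true) ∧ lev z = -lev (ko z) then (true, false) else p) :: ko z

def St (p q : Bool × Bool) : Prop := p = q ∨ (p = (true, false) ∧ q = (false, true))

lemma ko_len (z : Z) : (ko z).length = z.length := by
  induction z with
  | nil => rfl
  | cons p z ih => simp [ko, ih]

lemma ko_bd (z : Z) : lev (ko z) ≤ lev z ∧ lev z ≤ -lev (ko z) ∧ (lev z + lev (ko z)) % 2 = 0 := by
  induction z with
  | nil => simp [ko]
  | cons p z ih =>
    obtain ⟨a, b⟩ := p
    rw [ko]
    split_ifs with h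
    · obtain ⟨h1, h2⟩ := h
      rw [h1]
      simp
      omega
    · cases a <;> cases b <;> simp at h ⊢ <;> omega

lemma ko_chain : ∀ z z' : Z, ko z = ko z' → lev z ≤ lev z' → List.Forall₂ St z z'
  | [], [], _, _ => .nil
  | [], _ :: _, h, _ => by simp [ko] at h
  | _ :: _, [], h, _ => by simp [ko] at h
  | p :: z, q :: z', h, e => by
    rw [ko, ko, List.cons.injEq] at h
    obtain ⟨h1, h2⟩ := h
    have b := ko_bd z
    have b' := ko_bd z'
    rw [h2] at b h1
    have ih := ko_chain z z' h2
    split_ifs at h1 with c c' c'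
    · rw [c.1, c'.1] at e ⊢
      exact .cons (.inl rfl) (ih (by omega))
    · rw [c.1, ← h1] at e
      simp at e
      omega
    · rw [c'.1, h1]
      exact .cons (.inr ⟨rfl, rfl⟩) (ih (by omega))
    · subst h1
      exact .cons (.inl rfl) (ih (by simpa using e))

lemma ko_full (z : Z) (r : ℤ) (h1 : lev (ko z) ≤ r) (h2 : r ≤ -lev (ko z))
    (h3 : (r + lev (ko z)) % 2 = 0) : ∃ z', ko z' = ko z ∧ lev z' = r := by
  induction z generalizing r with
  | nil => exact ⟨[], rfl, by simp [ko] at h1 h2; simp; omega⟩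
  | cons p z ih =>
    have b := ko_bd z
    have low : ∀ r, lev (ko z) - 1 ≤ r → r ≤ -lev (ko z) + 1 → (r + lev (ko z) + 1) % 2 = 0 →
        ∃ z', ko z' = (true, false) :: ko z ∧ lev z' = r := fun r h1 h2 h3 => by
      rcases h2.lt_or_eq with h | h
      · obtain ⟨y, e1, e2⟩ := ih (r + 1) (by omega) (by omega) (by omega)
        exact ⟨(true, false) :: y, by simp [ko, e1], by simp [e2]⟩
      · obtain ⟨y, e1, e2⟩ := ih (r - 1) (by omega) (by omega) (by omega)
        exact ⟨(false, true) :: y, by simp [ko, e1, e2, h], by simp [e2]⟩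
    rw [ko] at h1 h2 h3 ⊢
    split_ifs at h1 h2 h3 ⊢ with c
    · simp at h1 h2 h3
      exact low r (by omega) (by omega) (by omega)
    · obtain ⟨a, b⟩ := p
      cases a <;> cases b <;> simp at h1 h2 h3 c
      · obtain ⟨y, e1, e2⟩ := ih r (by omega) (by omega) (by omega)
        exact ⟨(false, false) :: y, by simp [ko, e1], by simp [e2]⟩
      · obtain ⟨y, e1, e2⟩ := ih (r - 1) (by omega) (by omega) (by omega)
        refine ⟨(false, true) :: y, ?_, by simp [e2]⟩
        rw [ko, e1, e2, if_neg (by omega)]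
      · exact low r (by omega) (by omega) (by omega)
      · obtain ⟨y, e1, e2⟩ := ih r (by omega) (by omega) (by omega)
        exact ⟨(true, true) :: y, by simp [ko, e1], by simp [e2]⟩

lemma St_facts {z z' : Z} (h : List.Forall₂ St z z') :
    cnt (z.map Prod.fst) + cnt (z.map Prod.snd) = cnt (z'.map Prod.fst) + cnt (z'.map Prod.snd) ∧
    (∀ t, H (z.map Prod.snd) t ≤ H (z'.map Prod.snd) t) ∧
    ∀ t, H (z.map Prod.fst) t + cnt (z'.map Prod.fst) ≤
      H (z'.map Prod.fst) t + cnt (z.map Prod.fst) := by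
  induction h with
  | nil => simp
  | cons h _ ih =>
    obtain ⟨i1, i2, i3⟩ := ih
    have j2 := i2 0
    rw [H_zero, H_zero] at j2
    refine ⟨?_, fun t => ?_, fun t => ?_⟩
    · rcases h with rfl | ⟨rfl, rfl⟩ <;> simp <;> omega
    · cases t with
      | zero => rcases h with rfl | ⟨rfl, rfl⟩ <;> simp <;> omega
      | succ t => simpa using i2 t
    · cases t with
      | zero => simp [add_comm]
      | succ t =>
        have := i3 t
        rcases h with rfl | ⟨rfl, rfl⟩ <;> simp <;> omega

def glue (z : Z) (u : List Bool) : List Bool := z.map Prod.fst ++ (u ++ z.map Prod.snd)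

lemma glue_le {z z' : Z} {u u' : List Bool} (h : List.Forall₂ St z z') (hl : u.length = u'.length)
    (hc : cnt u = cnt u')
    (e : ∀ t, H u t + cnt (z.map Prod.snd) ≤ H u' t + cnt (z'.map Prod.snd)) (t : ℕ) :
    H (glue z u) t ≤ H (glue z' u') t := by
  obtain ⟨i1, i2, i3⟩ := St_facts h
  simp only [glue, H_append, List.length_map, ← h.length_eq, ← hl]
  rcases le_total t z.length with a | a
  · have := i3 t
    simp only [Nat.sub_eq_zero_of_le a, Nat.zero_sub, H_zero]
    omega
  · rw [H_big (z.map _) t (by simpa using a), H_big (z'.map _) t (by simpa [← h.length_eq] using a)]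
    rcases le_total (t - z.length) u.length with b | b
    · have := e (t - z.length)
      simp only [Nat.sub_eq_zero_of_le b, H_zero]
      omega
    · have := i2 (t - z.length - u.length)
      rw [H_big u _ b, H_big u' _ (hl ▸ b)]
      omega

lemma glue_surj (h m : ℕ) (x : List Bool) (hx : x.length = h + (m + h)) :
    ∃ (z : Z) (u : List Bool), z.length = h ∧ u.length = m ∧ x = glue z u := by
  refine ⟨(x.take h).zip ((x.drop h).drop m), (x.drop h).take m, by simp; omega, by simp; omega, ?_⟩
  rw [glue, List.map_fst_zip (by simp; omega), List.map_snd_zip (by simp; omega),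
    List.take_append_drop, List.take_append_drop]

lemma cnt_not (l : List Bool) : cnt (l.map not) + cnt l = l.length := by
  induction l with
  | nil => rfl
  | cons b l ih => cases b <;> simp <;> omega

/-- the outer chains are few -/
lemma outer (h : ℕ) : ∃ K : Finset Z, #K ≤ 2 * (2 * h).choose h ∧
    ∀ z : Z, z.length = h → ko z ∈ K := by
  refine ⟨({l ∈ all (2 * h) | cnt l = h} ∪ {l ∈ all (2 * h) | cnt l = h + 1}).image
    fun l => ko (((l.take h).map not).zip (l.drop h)), ?_, fun z hz => ?_⟩
  · refine card_image_le.trans ((card_union_le _ _).trans ?_)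
    rw [card_cnt, card_cnt]
    have := Nat.choose_le_middle (h + 1) (2 * h)
    rw [Nat.mul_div_cancel_left _ two_pos] at this
    omega
  · have b := ko_bd z
    obtain ⟨y, e1, e2⟩ := ko_full z (lev (ko z) % 2) (by omega) (by omega) (by omega)
    have hy : y.length = h := by rw [← ko_len, e1, ko_len, hz]
    refine mem_image.2 ⟨(y.map Prod.fst).map not ++ y.map Prod.snd, ?_, ?_⟩
    · have := cnt_not (y.map Prod.fst)
      simp only [mem_union, mem_filter, mem_all, List.length_append, List.length_map, cnt_append,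
        lev] at *
      omega
    · rw [List.take_left' (by simpa using hy), List.drop_left' (by simpa using hy), ← e1]
      congr 1
      rw [List.map_map (g := not), show not ∘ not = id by ext; simp, List.map_id]
      exact List.zip_map'.trans (by simp)

/-! chains in the middle part -/

def cs : List Bool → ℕ
  | [] => 0
  | b :: l => cnt (b :: l) + cs l

lemma cs_ins (l l' : List Bool) (b : Bool) :
    cs (l ++ b :: l') = cs (l ++ l') + b.toNat * (l.length + 1) + cnt l' := by
  induction l with
  | nil => simp [cs]; omega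
  | cons a l ih => simp [cs, ih]; ring

lemma split0 (u : List Bool) (d : ℕ) (h : d ≤ cnt u) : ∃ l l', u = l ++ l' ∧ cnt l' = d := by
  induction u with
  | nil => exact ⟨[], [], rfl, by simpa [eq_comm] using h⟩
  | cons b u ih =>
    rcases h.lt_or_eq with h | h
    · obtain ⟨l, l', rfl, e⟩ := ih (by cases b <;> simp at h <;> omega)
      exact ⟨b :: l, l', rfl, e⟩
    · exact ⟨[], b :: u, rfl, h.symm⟩

lemma split1 (u : List Bool) (d : ℕ) (h : cnt u ≤ d) (h' : d ≤ u.length) :
    ∃ l l', u = l ++ l' ∧ l.length + cnt l' = d := by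
  induction u generalizing d with
  | nil => exact ⟨[], [], rfl, by simpa [eq_comm] using h'⟩
  | cons b u ih =>
    rcases h.lt_or_eq with h | h
    · obtain ⟨l, l', rfl, e⟩ := ih (d - 1) (by simp at h; omega) (by simp at h'; omega)
      exact ⟨b :: l, l', rfl, by simp; omega⟩
    · exact ⟨[], b :: u, rfl, by simpa using h⟩

lemma cover (u : List Bool) (a : ℕ) (ha : a < u.length + 2) : ∃ l l' b, u = l ++ l' ∧
    cs (l ++ b :: l') % (u.length + 2) = a := by
  obtain ⟨d, h1, h2⟩ : ∃ d, d < u.length + 2 ∧ (cs u + d) % (u.length + 2) = a := by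
    refine ⟨(a + (u.length + 1) * cs u) % (u.length + 2), Nat.mod_lt _ (by omega), ?_⟩
    rw [Nat.add_mod_mod, show cs u + (a + (u.length + 1) * cs u) = a + (u.length + 2) * cs u by
      ring, Nat.add_mul_mod_self_left, Nat.mod_eq_of_lt ha]
  rcases le_or_gt d (cnt u) with h | h
  · obtain ⟨l, l', e, c⟩ := split0 u d h
    exact ⟨l, l', false, e, by rw [cs_ins, ← e, ← h2, c]; simp⟩
  · obtain ⟨l, l', e, c⟩ := split1 u (d - 1) (by omega) (by omega)
    exact ⟨l, l', true, e, by rw [cs_ins, ← e, ← h2]; congr 1; simp; omega⟩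

lemma H_del (l l' : List Bool) (b : Bool) (t : ℕ) :
    (t ≤ l.length → H (l ++ l') t + b.toNat = H (l ++ b :: l') t) ∧
    (l.length ≤ t → H (l ++ l') t = H (l ++ b :: l') (t + 1)) := by
  refine ⟨fun h => ?_, fun h => ?_⟩
  · simp only [H_append, Nat.sub_eq_zero_of_le h, H_zero, cnt_cons]
    omega
  · rw [H_append, H_append, H_big l t h, H_big l (t + 1) (by omega),
      show t + 1 - l.length = t - l.length + 1 by omega, H_succ]

/-- `u` and `u'` are comparable and their heights differ by at most one -/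
def Near (u u' : List Bool) : Prop := cnt u = cnt u' ∧ (∀ t, H u t ≤ H u' t + 1) ∧
  (∀ t, H u' t ≤ H u t + 1) ∧ ((∀ t, H u t ≤ H u' t) ∨ ∀ t, H u' t ≤ H u t)

lemma near_aux {l₁ l₂ k₁ k₂ : List Bool} {b : Bool} (e : l₁ ++ b :: l₂ = k₁ ++ b :: k₂)
    (h : l₁.length ≤ k₁.length) (t : ℕ) :
    (b = true → H (k₁ ++ k₂) t ≤ H (l₁ ++ l₂) t ∧ H (l₁ ++ l₂) t ≤ H (k₁ ++ k₂) t + 1) ∧
    (b = false → H (l₁ ++ l₂) t ≤ H (k₁ ++ k₂) t ∧ H (k₁ ++ k₂) t ≤ H (l₁ ++ l₂) t + 1) := by
  have a := H_del l₁ l₂ b t
  have c := H_del k₁ k₂ b t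
  have d := H_step (k₁ ++ b :: k₂) t
  rw [e] at a
  cases b <;> simp only [Bool.toNat_true, Bool.toNat_false] at a c <;> simp <;> omega

lemma near {l₁ l₂ k₁ k₂ : List Bool} {b : Bool} (e : l₁ ++ b :: l₂ = k₁ ++ b :: k₂) :
    Near (l₁ ++ l₂) (k₁ ++ k₂) := by
  have c : cnt (l₁ ++ l₂) = cnt (k₁ ++ k₂) := by
    have := congrArg cnt e
    simp at this ⊢
    omega
  rcases le_total l₁.length k₁.length with h | h
  · have a := near_aux e h
    cases b
    · exact ⟨c, fun t => ((a t).2 rfl).1.trans (by omega), fun t => ((a t).2 rfl).2,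
        .inl fun t => ((a t).2 rfl).1⟩
    · exact ⟨c, fun t => ((a t).1 rfl).2, fun t => ((a t).1 rfl).1.trans (by omega),
        .inr fun t => ((a t).1 rfl).1⟩
  · have a := near_aux e.symm h
    cases b
    · exact ⟨c, fun t => ((a t).2 rfl).2, fun t => ((a t).2 rfl).1.trans (by omega),
        .inr fun t => ((a t).2 rfl).1⟩
    · exact ⟨c, fun t => ((a t).1 rfl).1.trans (by omega), fun t => ((a t).1 rfl).2,
        .inl fun t => ((a t).1 rfl).1⟩

lemma middle (m : ℕ) : ∃ (K : Finset (List Bool × Bool)) (k : List Bool → List Bool × Bool),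
    (m + 2) * #K ≤ 4 * 2 ^ m ∧ (∀ u, u.length = m → k u ∈ K) ∧
    ∀ u u', u.length = m → u'.length = m → k u = k u' → Near u u' := by
  obtain ⟨a, ha, hc⟩ : ∃ a ∈ range (m + 2),
      (m + 2) * #{v ∈ all (m + 1) | cs v % (m + 2) = a} ≤ 2 ^ (m + 1) := by
    by_contra hh
    push Not at hh
    have h1 := sum_lt_sum_of_nonempty (s := range (m + 2)) (by simp) hh
    rw [← mul_sum, ← card_eq_sum_card_fiberwise (f := fun v => cs v % (m + 2))
      fun v _ => by simpa using Nat.mod_lt _ (by omega), card_all] at h1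
    simp at h1
  have h : ∀ u : List Bool, ∃ l l' b, u.length = m → u = l ++ l' ∧
      cs (l ++ b :: l') % (m + 2) = a := fun u => by
    by_cases hu : u.length = m
    · obtain ⟨l, l', b, e⟩ := cover u a (by rw [hu]; exact mem_range.1 ha)
      exact ⟨l, l', b, fun _ => hu ▸ e⟩
    · exact ⟨[], [], true, fun e => absurd e hu⟩
  choose l l' b hl using h
  refine ⟨{v ∈ all (m + 1) | cs v % (m + 2) = a} ×ˢ univ, fun u => (l u ++ b u :: l' u, b u),
    ?_, fun u hu => ?_, fun u u' hu hu' e => ?_⟩
  · rw [card_product, card_univ, Fintype.card_bool, ← mul_assoc]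
    omega
  · have := congrArg List.length (hl u hu).1
    simp only [mem_product, mem_filter, mem_all, mem_univ, and_true, (hl u hu).2,
      List.length_append, List.length_cons] at this ⊢
    omega
  · obtain ⟨e1, e2⟩ := Prod.mk.inj e
    rw [(hl u hu).1, (hl u' hu').1]
    rw [e2] at e1
    exact near e1

/-- words of length `h + (m + h)` are covered by few chains -/
lemma keys (h m : ℕ) : ∃ (K : Finset (Z × List Bool × Bool))
    (k : List Bool → Z × List Bool × Bool),
    (m + 2) * #K ≤ 8 * 2 ^ m * (2 * h).choose h ∧ (∀ x, x.length = h + (m + h) → k x ∈ K) ∧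
    ∀ x x', x.length = h + (m + h) → x'.length = h + (m + h) → k x = k x' →
      cnt x = cnt x' ∧ ((∀ t, H x t ≤ H x' t) ∨ ∀ t, H x' t ≤ H x t) := by
  obtain ⟨K₁, c1, m1⟩ := outer h
  obtain ⟨K₂, k, c2, m2, p2⟩ := middle m
  have g : ∀ x : List Bool, ∃ (z : Z) (u : List Bool), x.length = h + (m + h) →
      z.length = h ∧ u.length = m ∧ x = glue z u := fun x => by
    by_cases hx : x.length = h + (m + h)
    · obtain ⟨z, u, e⟩ := glue_surj h m x hx
      exact ⟨z, u, fun _ => e⟩
    · exact ⟨[], [], fun e => absurd e hx⟩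
  choose z u g using g
  refine ⟨K₁ ×ˢ K₂, fun x => (ko (z x), k (u x)), ?_,
    fun x hx => mem_product.2 ⟨m1 _ (g x hx).1, m2 _ (g x hx).2.1⟩, fun x x' hx hx' e => ?_⟩
  · rw [card_product]
    nlinarith [Nat.mul_le_mul c1 c2]
  obtain ⟨e1, e2⟩ := Prod.mk.inj e
  obtain ⟨-, a2, a3⟩ := g x hx
  obtain ⟨-, b2, b3⟩ := g x' hx'
  obtain ⟨n1, n2, n3, n4⟩ := p2 _ _ a2 b2 e2
  have hl := a2.trans b2.symm
  rw [a3, b3]
  generalize z x = y at *
  generalize z x' = y' at *
  generalize u x = w at *
  generalize u x' = w' at *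
  rcases lt_trichotomy (lev y) (lev y') with c | c | c
  · have f := ko_chain _ _ e1 c.le
    have := (St_facts f).1
    refine ⟨by simp only [glue, cnt_append]; omega, .inl (glue_le f hl n1 fun t => ?_)⟩
    have := n2 t
    simp only [lev] at c
    omega
  · have f := ko_chain _ _ e1 c.le
    have f' := ko_chain _ _ e1.symm c.ge
    have := (St_facts f).1
    simp only [lev] at c
    refine ⟨by simp only [glue, cnt_append]; omega, n4.imp (fun q => glue_le f hl n1 fun t => ?_)
      fun q => glue_le f' hl.symm n1.symm fun t => ?_⟩ <;> have := q t <;> omega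
  · have f := ko_chain _ _ e1.symm c.le
    have := (St_facts f).1
    refine ⟨by simp only [glue, cnt_append]; omega,
      .inr (glue_le f hl.symm n1.symm fun t => ?_)⟩
    have := n3 t
    simp only [lev] at c
    omega

end Pool.Agent.H.MP_269158_co
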