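import Mathlib
import Pool.Agent.H.MP_269158_co.Defs
import Pool.Agent.H.MP_269158_co.Str

set_option autoImplicit false

namespace Pool.Agent.H.MP_269158_co

open Finset

def dev (l : List Bool) : ℤ := 2 * ((parts l).sum : ℕ) - cnt l * ((l.length : ℤ) - cnt l)

lemma dev_true (l : List Bool) : dev (true :: l) = dev l - ((l.length : ℤ) - cnt l) := by
  simp only [dev, parts, cnt_cons, List.length_cons, Bool.toNat_true]
  push_cast
  ring

lemma dev_false (l : List Bool) : dev (false :: l) = dev l + cnt l := by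
  simp only [dev, parts, cnt_cons, List.length_cons, Bool.toNat_false, List.sum_cons]
  push_cast
  ring

lemma mom (N a : ℕ) : ∑ l ∈ all N with cnt l = a, dev l = 0 ∧
    3 * ∑ l ∈ all N with cnt l = a, dev l ^ 2 = N.choose a * a * ((N : ℤ) - a) * (N + 1) := by
  induction N generalizing a with
  | zero => cases a <;> simp [all, filter_singleton, dev, parts]
  | succ N ih =>
    have ex : ∀ (a : ℕ) (c : ℤ), ∑ l ∈ all N with cnt l = a, (dev l + c) = N.choose a * c ∧
        3 * ∑ l ∈ all N with cnt l = a, (dev l + c) ^ 2 =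
          N.choose a * a * ((N : ℤ) - a) * (N + 1) + 3 * N.choose a * c ^ 2 := fun a c => by
      simp only [add_sq, sum_add_distrib, sum_const, card_cnt, ← sum_mul, ← mul_sum, (ih a).1,
        nsmul_eq_mul]
      exact ⟨by ring, by linear_combination (ih a).2⟩
    have sp : ∀ g : ℤ → ℤ, ∑ l ∈ all (N + 1) with cnt l = a, g (dev l) =
        ∑ l ∈ all N with 1 + cnt l = a, g (dev l + (a - 1 - N)) +
        ∑ l ∈ all N with cnt l = a, g (dev l + a) := fun g => by
      rw [sum_filter, sum_all, sum_filter, sum_filter]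
      congr 1 <;> refine sum_congr rfl fun l hl => ?_
      · rw [dev_true, (mem_all _ _).1 hl]
        refine if_ctx_congr Iff.rfl (fun h => ?_) fun _ => rfl
        congr 1
        omega
      · rw [dev_false]
        refine if_ctx_congr (by simp) (fun h => by rw [h]) fun _ => rfl
    have s1 := sp id
    have s2 := sp (· ^ 2)
    simp only [id] at s1 s2
    rw [s1, s2]
    cases a with
    | zero =>
      have := ex 0 0
      simp at this ⊢
      exact this
    | succ a =>
      have e1 := ex a ((a + 1 : ℕ) - 1 - N)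
      have e2 := ex (a + 1) (a + 1 : ℕ)
      have c : (N.choose (a + 1) : ℤ) * (a + 1) = N.choose a * (N - a) := by
        rcases le_or_gt a N with h | h
        · have := Nat.choose_succ_right_eq N a
          zify [h] at this
          exact this
        · simp [Nat.choose_eq_zero_of_lt h, Nat.choose_eq_zero_of_lt (Nat.lt_succ_of_lt h)]
      simp only [add_comm 1, add_left_inj]
      rw [mul_add, e1.1, e1.2, e2.1, e2.2, Nat.choose_succ_succ']
      push_cast
      exact ⟨by linear_combination c, by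
        linear_combination ((N - a - 1) * (N + 1) + 3 * (a + 1) - (N - a) * (N + 2)) * c⟩

lemma level (n : ℕ) (d : ℤ) : 2 ^ #{l ∈ all (2 * n) | cnt l = n ∧ dev l = d} ≤ A n := by
  classical
  let F : List Bool → L n := fun l => ⟨fun i => ⟨min ((parts l).getD i 0) n, by omega⟩,
    fun i j h => Fin.mk_le_mk.2 (min_le_min_right _ (parts_anti l i j h))⟩
  have key : ∀ l ∈ ({l ∈ all (2 * n) | cnt l = n ∧ dev l = d} : Finset _),
      parts l = List.ofFn fun i => ((F l).1 i : ℕ) := fun l hl => by
    simp only [mem_filter, mem_all] at hl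
    have a := parts_len l
    refine List.ext_getElem (by simp; omega) fun i h1 h2 => ?_
    have b := parts_le l i
    simp only [List.getElem_ofFn, F, List.getD_eq_getElem _ _ h1] at b ⊢
    omega
  have inj : Set.InjOn F ({l ∈ all (2 * n) | cnt l = n ∧ dev l = d} : Finset _) :=
    fun l hl l' hl' e => by
      have a := key l hl
      have b := key l' hl'
      simp only [coe_filter, mem_all, Set.mem_ofPred_eq] at hl hl'
      exact parts_inj l l' (by omega) (by omega) (by rw [a, b, e])
  rw [← card_image_of_injOn inj, ← card_powerset]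
  refine card_le_card fun S hS => mem_filter.2 ⟨mem_univ _, fun f hf g hg hne hle => hne ?_⟩
  obtain ⟨l, hl, rfl⟩ := mem_image.1 (mem_powerset.1 hS hf)
  obtain ⟨l', hl', rfl⟩ := mem_image.1 (mem_powerset.1 hS hg)
  have a := congrArg List.sum (key l hl)
  have b := congrArg List.sum (key l' hl')
  rw [mem_filter, mem_all, dev] at hl hl'
  rw [List.sum_ofFn] at a b
  have e : ∑ i, ((F l).1 i : ℕ) = ∑ i, ((F l').1 i : ℕ) := by
    obtain ⟨h1, h2, h3⟩ := hl
    obtain ⟨h4, h5, h6⟩ := hl'
    rw [h1, h2] at h3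
    rw [h4, h5] at h6
    omega
  exact Subtype.ext (funext fun i => Fin.ext
    ((sum_eq_sum_iff_of_le fun i _ => Fin.le_def.1 (hle i)).1 e i (mem_univ i)))

lemma lower (n R M : ℕ) (hn : 1 ≤ n) (hR : 2 * n ^ 3 ≤ R ^ 2) (hM : A n < 2 ^ (M + 1)) :
    (2 * n).choose n ≤ 4 * R * M := by
  have h1 : ∀ d, #{l ∈ all (2 * n) | cnt l = n ∧ dev l = d} ≤ M := fun d =>
    Nat.lt_succ_iff.1 ((Nat.pow_lt_pow_iff_right one_lt_two).1 ((level n d).trans_lt hM))
  have h2 : #{l ∈ ({l ∈ all (2 * n) | cnt l = n} : Finset _) | |dev l| < R} ≤ M * (2 * R) := by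
    refine (card_le_mul_card_image_of_maps_to (f := dev) (t := Ico (-R : ℤ) R)
      (fun l hl => ?_) M fun d _ => (card_le_card fun l hl => ?_).trans (h1 d)).trans ?_
    · have := abs_lt.1 (mem_filter.1 hl).2
      exact mem_Ico.2 ⟨this.1.le, this.2⟩
    · simp only [mem_filter] at hl ⊢
      tauto
    · rw [Int.card_Ico]
      exact Nat.mul_le_mul_left _ (by omega)
  have h3 : (#{l ∈ ({l ∈ all (2 * n) | cnt l = n} : Finset _) | ¬ |dev l| < R} : ℤ) * R ^ 2 ≤
      ∑ l ∈ all (2 * n) with cnt l = n, dev l ^ 2 := by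
    rw [← nsmul_eq_mul]
    refine (card_nsmul_le_sum _ _ _ fun l hl => ?_).trans
      (sum_le_sum_of_subset_of_nonneg (filter_subset _ _) fun _ _ _ => sq_nonneg _)
    rw [← sq_abs (dev l)]
    exact pow_le_pow_left₀ (by positivity) (not_lt.1 (mem_filter.1 hl).2) 2
  have h4 := card_filter_add_card_filter_not (s := {l ∈ all (2 * n) | cnt l = n})
    fun l => |dev l| < R
  have h5 := (mom (2 * n) n).2
  rw [card_cnt] at h4
  generalize #{l ∈ ({l ∈ all (2 * n) | cnt l = n} : Finset _) | |dev l| < R} = x at *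
  generalize #{l ∈ ({l ∈ all (2 * n) | cnt l = n} : Finset _) | ¬ |dev l| < R} = y at *
  generalize ∑ l ∈ all (2 * n) with cnt l = n, dev l ^ 2 = V at *
  generalize (2 * n).choose n = C at *
  have h6 : 2 * y ≤ C := by
    zify at hR hn ⊢
    push_cast at h5
    have p : (0 : ℤ) < n ^ 3 := by positivity
    have q : (0 : ℤ) ≤ C * (n ^ 2 * (n - 1)) := by
      have : (0 : ℤ) ≤ n - 1 := by omega
      positivity
    refine le_of_mul_le_mul_right ?_ p
    nlinarith [mul_le_mul_of_nonneg_left hR (Nat.cast_nonneg (α := ℤ) y)]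
  nlinarith

end Pool.Agent.H.MP_269158_co
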