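import Mathlib
import Pool.Agent.H.MP_269158_co.Defs
import Pool.Agent.H.MP_269158_co.Key

set_option autoImplicit false

namespace Pool.Agent.H.MP_269158_co

open Finset

/-- an antichain is determined by its projections in every product of two chains -/
lemma grid {β α ι : Type} [PartialOrder β] [DecidableEq α] [DecidableEq ι] (a b : β → α)
    (k : α → ι) (r : α → α → Prop) (ρ : β → ℕ) (rf : ∀ x, r x x)
    (h1 : ∀ p q, k (a p) = k (a q) → r (a p) (a q) ∨ r (a q) (a p))
    (h2 : ∀ p q, k (b p) = k (b q) → r (b p) (b q) ∨ r (b q) (b p))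
    (hρ : ∀ p q, r (a p) (a q) → a p ≠ a q → ρ p < ρ q)
    (hle : ∀ p q, r (a p) (a q) → r (b p) (b q) → p ≤ q) (S T : Finset β)
    (hS : IsAntichain (· ≤ ·) (S : Set β)) (hT : IsAntichain (· ≤ ·) (T : Set β))
    (e1 : S.image (fun p => (a p, k (b p))) = T.image fun p => (a p, k (b p)))
    (e2 : S.image (fun p => (b p, k (a p))) = T.image fun p => (b p, k (a p))) : S = T := by
  classical
  have c1 : ∀ p q, a p = a q → k (b p) = k (b q) → p ≤ q ∨ q ≤ p := fun p q e f =>
    (h2 p q f).imp (hle p q (e ▸ rf _)) (hle q p (e ▸ rf _))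
  have c2 : ∀ p q, b p = b q → k (a p) = k (a q) → p ≤ q ∨ q ≤ p := fun p q e f =>
    (h1 p q f).imp (fun g => hle p q g (e ▸ rf _)) fun g => hle q p g (e ▸ rf _)
  have an : ∀ S : Finset β, IsAntichain (· ≤ ·) (S : Set β) → ∀ p ∈ S, ∀ q ∈ S,
      p ≤ q ∨ q ≤ p → p = q := fun S h p hp q hq e =>
    e.elim (fun e => h.eq hp hq e) fun e => (h.eq hq hp e).symm
  have key : ∀ S T : Finset β, IsAntichain (· ≤ ·) (S : Set β) → IsAntichain (· ≤ ·) (T : Set β) →
      S.image (fun p => (a p, k (b p))) = T.image (fun p => (a p, k (b p))) →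
      S.image (fun p => (b p, k (a p))) = T.image (fun p => (b p, k (a p))) →
      ∀ p ∈ S, p ∉ T → (∀ q ∈ symmDiff S T, ρ p ≤ ρ q) → False := by
    intro S T hS hT e1 e2 p hp hp' hm
    have mn : ∀ q ∈ symmDiff S T, k (a q) = k (a p) → r (a p) (a q) := fun q hq e => by
      rcases h1 _ _ e with g | g
      · by_cases f : a q = a p
        · exact f ▸ rf _
        · exact absurd (hρ _ _ g f) (not_lt.2 (hm q hq))
      · exact g
    obtain ⟨q, hq, f⟩ := mem_image.1 (e1 ▸ mem_image_of_mem _ hp)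
    obtain ⟨f1, f2⟩ := Prod.mk.inj f
    obtain ⟨q', hq', g⟩ := mem_image.1 (e2 ▸ mem_image_of_mem _ hp)
    obtain ⟨g1, g2⟩ := Prod.mk.inj g
    obtain ⟨p', hp2, j⟩ := mem_image.1 (e2.symm ▸ mem_image_of_mem _ hq)
    obtain ⟨j1, j2⟩ := Prod.mk.inj j
    have n1 : q ∉ S := fun h => hp' (an S hS q h p hp (c1 q p f1 f2) ▸ hq)
    have n2 : q' ∉ S := fun h => hp' (an S hS q' h p hp (c2 q' p g1 g2) ▸ hq')
    have n3 : p' ∉ T := fun h => n1 (an T hT p' h q hq (c2 p' q j1 j2) ▸ hp2)
    have r2 := mn q' (mem_symmDiff.2 (.inr ⟨hq', n2⟩)) g2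
    have r3 := mn p' (mem_symmDiff.2 (.inl ⟨hp2, n3⟩)) (j2.trans (by rw [f1]))
    have fin : b p = b q → False := fun e => hp' ((le_antisymm (hle q p (f1 ▸ rf _) (e ▸ rf _))
      (hle p q (f1 ▸ rf _) (e ▸ rf _))) ▸ hq)
    rcases h2 _ _ f2 with w | w
    · exact fin (by rw [hT.eq hq hq' (hle q q' (f1 ▸ r2) (g1 ▸ w)), g1])
    · exact fin (by rw [hS.eq hp hp2 (hle p p' r3 (j1 ▸ w)), j1])
  by_contra hne
  obtain ⟨p, hp, hm⟩ := exists_min_image (symmDiff S T) ρ (symmDiff_nonempty.2 hne)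
  rcases mem_symmDiff.1 hp with h | h
  · exact key S T hS hT e1 e2 p h.1 h.2 hm
  · exact key T S hT hS e1.symm e2.symm p h.1 h.2 (by rwa [symmDiff_comm])

lemma word (n : ℕ) (f : L n) : ∃ x : List Bool, x.length = n + n ∧ cnt x = n ∧
    parts x = List.ofFn fun i => (f.1 i : ℕ) := by
  obtain ⟨x, h1, h2⟩ := parts_surj (List.ofFn fun i => (f.1 i : ℕ))
    (List.pairwise_ofFn.2 fun i j h => f.2 h.le) n (by
      simp only [List.mem_ofFn]
      rintro _ ⟨i, rfl⟩
      exact Nat.le_of_lt_succ (f.1 i).2)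
  have := parts_len x
  rw [h2, List.length_ofFn] at this
  exact ⟨x, by omega, h1, h2⟩

lemma upper (h m n : ℕ) (hn : n = h + (m + h)) : ∃ B : ℕ, A n ≤ 2 ^ B ∧
    (m + 2) * B ≤ 16 * 2 ^ m * (2 * h).choose h * n.choose (n / 2) := by
  classical
  obtain ⟨K, k, c, mk, p⟩ := keys h m
  rw [← hn] at mk p
  choose X l1 l2 l3 using word n
  let U : Finset (List Bool × Z × List Bool × Bool) :=
    {q ∈ all n ×ˢ K | ∃ y, y.length = n ∧ k y = q.2 ∧ cnt q.1 + cnt y = n}
  have hU : #U ≤ n.choose (n / 2) * #K := by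
    refine card_le_mul_card_image_of_maps_to (f := Prod.snd)
      (fun q hq => (mem_product.1 (mem_filter.1 hq).1).2) _ fun κ _ => ?_
    by_cases e : ∃ y, y.length = n ∧ k y = κ
    · obtain ⟨y, y1, y2⟩ := e
      refine le_trans ?_ (Nat.choose_le_middle (n - cnt y) n)
      rw [← card_cnt]
      refine card_le_card_of_injOn Prod.fst (fun q hq => ?_) fun q hq q' hq' e => ?_
      · simp only [U, coe_filter, mem_filter, mem_product, Set.mem_ofPred_eq] at hq ⊢
        obtain ⟨⟨⟨a, -⟩, y', b1, b2, b3⟩, d⟩ := hq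
        have := (p y y' y1 b1 (by rw [y2, b2, d])).1
        exact ⟨a, by omega⟩
      · exact Prod.ext e ((mem_filter.1 hq).2.trans (mem_filter.1 hq').2.symm)
    · rw [card_eq_zero.2 (filter_eq_empty_iff.2 fun q hq d => ?_)]
      · exact Nat.zero_le _
      · obtain ⟨y, b1, b2, -⟩ := (mem_filter.1 hq).2
        exact e ⟨y, b1, b2.trans d⟩
  have la : ∀ f, ((X f).take n).length = n := fun f => by simp [l1]
  have lb : ∀ f, ((X f).drop n).length = n := fun f => by simp [l1]
  have lc : ∀ f, cnt ((X f).take n) + cnt ((X f).drop n) = n := fun f => by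
    rw [← cnt_append, List.take_append_drop, l2]
  have q1 := Nat.mul_le_mul_left (m + 2) hU
  have q2 := Nat.mul_le_mul_left (n.choose (n / 2)) c
  refine ⟨#U + #U, ?_, by nlinarith⟩
  clear q1 q2
  rw [pow_add, ← card_powerset, ← card_product]
  refine card_le_card_of_injOn (fun S => (S.image fun f => ((X f).take n, k ((X f).drop n)),
    S.image fun f => ((X f).drop n, k ((X f).take n)))) (fun S _ => ?_) fun S hS T hT e => ?_
  · simp only [coe_product, Set.mem_prod, mem_coe, mem_powerset, image_subset_iff]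
    exact ⟨fun f _ => mem_filter.2 ⟨mem_product.2 ⟨(mem_all _ _).2 (la f), mk _ (lb f)⟩,
      _, lb f, rfl, lc f⟩, fun f _ => mem_filter.2 ⟨mem_product.2 ⟨(mem_all _ _).2 (lb f),
      mk _ (la f)⟩, _, la f, rfl, (add_comm _ _).trans (lc f)⟩⟩
  · refine grid (fun f => (X f).take n) (fun f => (X f).drop n) k (fun x y => ∀ t, H x t ≤ H y t)
      (fun f => ∑ t ∈ range n, H ((X f).take n) t) (fun _ _ => le_rfl)
      (fun f g e => (p _ _ (la f) (la g) e).2) (fun f g e => (p _ _ (lb f) (lb g) e).2)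
      (fun f g e d => ?_) (fun f g e d i => ?_) S T (mem_filter.1 hS).2 (mem_filter.1 hT).2
      (Prod.mk.inj e).1 (Prod.mk.inj e).2
    · obtain ⟨t, ht⟩ := not_forall.1 fun q => d (H_inj _ _ ((la f).trans (la g).symm) q)
      refine sum_lt_sum (fun t _ => e t) ⟨t, mem_range.2 ?_, lt_of_le_of_ne (e t) ht⟩
      by_contra q
      exact ht (by rw [H_big _ _ (by rw [la]; omega), H_big _ _ (by rw [la]; omega)])
    · have := parts_mono (l := X f) (l' := X g) (by rw [l1, l1]) (by rw [l2, l2]) (fun t => by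
        rw [← List.take_append_drop n (X f), ← List.take_append_drop n (X g), H_append, H_append,
          la, la]
        exact Nat.add_le_add (e _) (d _)) i (by simp [l3])
      simpa [l3] using this

end Pool.Agent.H.MP_269158_co
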